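import Pool.Agent.Helper82.SG.St

/-! # Project SG, module MST: a minimum spanning tree as a list -/

set_option autoImplicit false

namespace Pool.Agent.Helper86.SG

open Finset Real MeasureTheory Pool.Agent.Helper77.Steiner Pool.Agent.Helper82.SG
open Pool.Agent.Helper18.GP (nlen NConn)
open scoped ENNReal
open Relation (EqvGen)

theorem hMST : StMST := by
  intro E _ A hA
  classical
  have hne := exists_tree_on A hA
  have : Nonempty A := hA.to_subtype
  obtain ⟨⟨T, hT⟩, hTeq⟩ := exists_eq_ciInf_of_finite
    (f := fun T : {T : SimpleGraph A // T.IsTree} => ∑ e ∈ T.1.edgeFinset, edgeLen A e)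
  have hlen : ∑ e ∈ T.edgeFinset, edgeLen A e = mstLen A := hTeq.trans (by unfold mstLen; congr!)
  have hout : ∀ e : Sym2 A, s((Quot.out e).1, (Quot.out e).2) = e := fun e => Quot.out_eq e
  obtain ⟨g, hg⟩ : ∃ g : Sym2 A → E × E, ∀ e, g e = (((Quot.out e).1 : E), ((Quot.out e).2 : E)) :=
    ⟨_, fun e => rfl⟩
  have hadj : ∀ e ∈ T.edgeFinset, T.Adj (Quot.out e).1 (Quot.out e).2 := by
    intro e he
    rw [SimpleGraph.mem_edgeFinset] at he
    rw [← SimpleGraph.mem_edgeSet, hout]
    exact he
  refine ⟨T.edgeFinset.toList.map g, ?_, ?_, ?_, ?_⟩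
  · intro p hp
    obtain ⟨e, he, rfl⟩ := List.mem_map.1 hp
    rw [Finset.mem_toList] at he
    rw [hg]
    exact ⟨Subtype.mem _, Subtype.mem _, fun h => (hadj e he).ne (Subtype.ext h)⟩
  · intro a ha b hb
    have hstep : ∀ x y : A, T.Adj x y →
        EqvGen (fun u v : E => (u, v) ∈ T.edgeFinset.toList.map g) (x : E) (y : E) := by
      intro x y hxy
      have he : s(x, y) ∈ T.edgeFinset := by
        rw [SimpleGraph.mem_edgeFinset]
        exact hxy
      have hm : g s(x, y) ∈ T.edgeFinset.toList.map g :=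
        List.mem_map.2 ⟨_, Finset.mem_toList.2 he, rfl⟩
      rw [hg] at hm
      rcases Sym2.eq_iff.1 (hout s(x, y)) with h | h
      · rw [h.1, h.2] at hm
        exact EqvGen.rel _ _ hm
      · rw [h.1, h.2] at hm
        exact EqvGen.symm _ _ (EqvGen.rel _ _ hm)
    have key : ∀ x y : A, Relation.ReflTransGen T.Adj x y →
        EqvGen (fun u v : E => (u, v) ∈ T.edgeFinset.toList.map g) (x : E) (y : E) := by
      intro x y h
      induction h with
      | refl => exact EqvGen.refl _
      | tail _ h2 ih => exact EqvGen.trans _ _ _ ih (hstep _ _ h2)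
    exact key ⟨a, ha⟩ ⟨b, hb⟩ ((SimpleGraph.reachable_iff_reflTransGen _ _).1
      (hT.isConnected.preconnected _ _))
  · rw [List.length_map, Finset.length_toList]
    have := hT.card_edgeFinset
    rw [Fintype.card_coe] at this
    exact this
  · rw [← hlen]
    unfold nlen
    rw [List.map_map, Finset.sum_map_toList]
    refine Finset.sum_congr rfl ?_
    intro e _
    rw [Function.comp_apply, hg]
    exact (edgeLen_mk A _ _).symm.trans (by rw [hout])

end Pool.Agent.Helper86.SG
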